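import Mathlib

/-!
# Weak sequencings of subsets of abelian groups of size at least quadratic in `t`
-/

set_option autoImplicit false

namespace Pool.Agent.Results.MP_b4ec45_co.QuadraticRange

open Finset

variable {G : Type*} [AddCommGroup G]

/-- Every nonempty contiguous block of length at most `t` has nonzero sum. -/
def Safe (t : ℕ) (l : List G) : Prop :=
  ∀ w : List G, w <:+: l → w ≠ [] → w.length ≤ t → w.sum ≠ 0

theorem Safe.mono {t : ℕ} {l l' : List G} (h : Safe t l) (hl : l' <:+: l) : Safe t l' :=
  fun w hw h1 h2 => h w (hw.trans hl) h1 h2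

theorem safe_nil (t : ℕ) : Safe t ([] : List G) := by
  intro w hw h1
  exact absurd (List.infix_nil.mp hw) h1

theorem Safe.partial_sums {t : ℕ} {l : List G} (h : Safe t l) {i j : ℕ} (hij : i < j)
    (hj : j ≤ l.length) (ht : j ≤ i + t) : (l.take i).sum ≠ (l.take j).sum := by
  have h1 : l.take j = l.take i ++ (l.take j).drop i := by
    have := (List.take_append_drop i (l.take j)).symm
    rwa [List.take_take, min_eq_left hij.le] at this
  have h2 : (l.take j).drop i <:+: l :=
    (List.drop_suffix i (l.take j)).isInfix.trans (List.take_prefix j l).isInfix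
  have hlen : ((l.take j).drop i).length = j - i := by
    rw [List.length_drop, List.length_take, min_eq_left hj]
  have h3 := h _ h2 (by
    intro h0
    rw [h0] at hlen
    simp at hlen
    omega) (by omega)
  rw [h1, List.sum_append]
  intro h4
  exact h3 (by simpa using h4.symm)

theorem Safe.cons {t : ℕ} {l : List G} {x : G} (h : Safe t l) (hx : x ≠ 0)
    (hi : ∀ i, 1 ≤ i → i < t → x + (l.take i).sum ≠ 0) : Safe t (x :: l) := by
  intro w hw h1 h2
  rcases List.infix_cons_iff.mp hw with h3 | h3
  · rcases w with _ | ⟨y, w'⟩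
    · exact absurd rfl h1
    · rw [List.cons_prefix_cons] at h3
      obtain ⟨rfl, h4⟩ := h3
      rcases Nat.eq_zero_or_pos w'.length with h0 | h0
      · rw [List.length_eq_zero_iff] at h0
        subst h0
        simpa using hx
      · have h5 := hi w'.length h0 (by simpa using h2)
        rw [List.prefix_iff_eq_take] at h4
        rw [← h4] at h5
        simpa using h5
  · exact h w h3 h1 h2

theorem safe_glue {t : ℕ} {X J Y : List G} (h1 : Safe t (X ++ J)) (h2 : Safe t (J ++ Y))
    (hJ : t ≤ J.length + 1) : Safe t (X ++ J ++ Y) := by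
  intro w hw hne hlen
  obtain ⟨s, e, he⟩ := hw
  rcases List.append_eq_append_iff.mp he with ⟨a, ha, _⟩ | ⟨c, hc, _⟩
  · exact h1 w ⟨s, a, ha.symm⟩ hne hlen
  · rcases c with _ | ⟨y, c'⟩
    · exact h1 w ⟨s, [], by simpa using hc⟩ hne hlen
    · have hl := congrArg List.length hc
      simp only [List.length_append, List.length_cons] at hl
      have he' : X ++ (J ++ Y) = s ++ (w ++ e) := by
        rw [← List.append_assoc, ← List.append_assoc]; exact he.symm
      rcases List.append_eq_append_iff.mp he' with ⟨a, ha, hb⟩ | ⟨c, hc2, _⟩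
      · exact h2 w ⟨a, e, by rw [hb, List.append_assoc]⟩ hne hlen
      · have hl2 := congrArg List.length hc2
        simp only [List.length_append] at hl2
        have hc0 : c = [] := by
          rw [← List.length_eq_zero_iff]; omega
        subst hc0
        simp only [List.append_nil] at hc2
        subst hc2
        have := List.append_cancel_left he'
        exact h2 w ⟨[], e, by simpa using this.symm⟩ hne hlen

theorem safe_insert {t : ℕ} {J K : List G} {r : G} (h : Safe t (J ++ K))
    (hr : ∀ a b, a + b < t → r + ((J.drop (J.length - a)).sum + (K.take b).sum) ≠ 0) :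
    Safe t (J ++ ([r] ++ K)) := by
  intro w hw hne hlen
  obtain ⟨s, e, he⟩ := hw
  have key : ∀ u v : List G, w = u ++ r :: v → u <:+ J → v <+: K → w.sum ≠ 0 := by
    intro u v hw hu hv
    rw [hw] at hlen ⊢
    simp only [List.length_append, List.length_cons] at hlen
    have h1 := hr u.length v.length (by omega)
    have hu' : J.drop (J.length - u.length) = u := (List.suffix_iff_eq_drop.mp hu).symm
    have hv' : K.take v.length = v := (List.prefix_iff_eq_take.mp hv).symm
    rw [hu', hv'] at h1
    rw [List.sum_append, List.sum_cons]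
    intro h2
    apply h1
    rw [← h2]
    abel
  rcases List.append_eq_append_iff.mp he with ⟨a, ha, _⟩ | ⟨c, hc, hc'⟩
  · exact h w ⟨s, a ++ K, by rw [ha]; simp⟩ hne hlen
  · rcases c with _ | ⟨y, v⟩
    · exact h w ⟨s, K, by rw [hc]; simp⟩ hne hlen
    · simp only [List.cons_append, List.nil_append, List.cons.injEq] at hc'
      obtain ⟨rfl, hK⟩ := hc'
      rcases List.append_eq_append_iff.mp hc with ⟨a, ha, hb⟩ | ⟨c2, hc2, hb⟩
      · exact key a v hb ⟨s, ha.symm⟩ ⟨e, hK.symm⟩
      · rcases c2 with _ | ⟨z, c3⟩
        · exact key [] v (by simpa using hb.symm) (List.nil_suffix) ⟨e, hK.symm⟩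
        · simp only [List.cons_append, List.cons.injEq] at hb
          obtain ⟨_, hv⟩ := hb
          refine h w ⟨J ++ c3, e, ?_⟩ hne hlen
          rw [hK, hv]
          simp

theorem exists_cons {t : ℕ} (ht : 1 ≤ t) {l : List G} {P : Finset G} (h0 : (0 : G) ∉ P)
    (hl : Safe t l) (hP : t ≤ P.card) : ∃ x ∈ P, Safe t (x :: l) := by
  classical
  have hc : ((Ico 1 t).image (fun i => -(l.take i).sum)).card < P.card := by
    refine lt_of_le_of_lt card_image_le ?_
    rw [Nat.card_Ico]; omega
  obtain ⟨x, hx, hx2⟩ := exists_mem_notMem_of_card_lt_card hc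
  refine ⟨x, hx, hl.cons (fun h => h0 (h ▸ hx)) fun i h1 h2 h3 => hx2 ?_⟩
  exact mem_image.mpr ⟨i, mem_Ico.mpr ⟨h1, h2⟩, (eq_neg_of_add_eq_zero_left h3).symm⟩

theorem exists_cons2 {t : ℕ} (ht : 1 ≤ t) {l : List G} {S : Finset G} {b : G} (hb : b ≠ 0)
    (h0 : (0 : G) ∉ S) (hl : Safe t l) (hS : 2 * t - 1 ≤ S.card) :
    ∃ x ∈ S, Safe t (x :: l) ∧ Safe t (b :: x :: l) := by
  classical
  have hc : ((Ico 1 t).image (fun i => -(l.take i).sum) ∪
      (range (t - 1)).image (fun i => -b - (l.take i).sum)).card < S.card := by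
    refine lt_of_le_of_lt (card_union_le _ _) ?_
    refine lt_of_le_of_lt (Nat.add_le_add card_image_le card_image_le) ?_
    rw [Nat.card_Ico, card_range]; omega
  obtain ⟨x, hx, hx2⟩ := exists_mem_notMem_of_card_lt_card hc
  have h1 : Safe t (x :: l) := by
    refine hl.cons (fun h => h0 (h ▸ hx)) fun i h1 h2 h3 => hx2 ?_
    exact mem_union_left _ (mem_image.mpr
      ⟨i, mem_Ico.mpr ⟨h1, h2⟩, (eq_neg_of_add_eq_zero_left h3).symm⟩)
  refine ⟨x, hx, h1, h1.cons hb fun i h2 h3 h4 => hx2 ?_⟩
  obtain ⟨j, rfl⟩ : ∃ j, i = j + 1 := ⟨i - 1, by omega⟩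
  refine mem_union_right _ (mem_image.mpr ⟨j, mem_range.mpr (by omega), ?_⟩)
  rw [List.take_succ_cons, List.sum_cons] at h4
  have : x = -b - (l.take j).sum := by
    rw [eq_sub_iff_add_eq, eq_neg_iff_add_eq_zero]
    rw [← h4]; abel
  exact this.symm

theorem greedy {t : ℕ} (ht : 1 ≤ t) {c : ℕ} (hc : t - 1 ≤ c) : ∀ (d : ℕ) (P : Finset G),
    (0 : G) ∉ P → P.card = c + d → ∀ l : List G, Safe t l →
    ∃ (L : List G) (P' : Finset G), P' ⊆ P ∧ P'.card = c ∧
      (L : Multiset G) + P'.val = P.val ∧ Safe t (L ++ l) := by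
  classical
  intro d
  induction d with
  | zero => exact fun P _ hP l hl => ⟨[], P, Subset.refl _, hP, by simp, hl⟩
  | succ d ih =>
    intro P h0 hP l hl
    obtain ⟨x, hx, hs⟩ := exists_cons ht h0 hl (by omega)
    obtain ⟨L, P', h1, h2, h3, h4⟩ := ih (P.erase x) (fun h => h0 (mem_of_mem_erase h))
      (by rw [card_erase_of_mem hx]; omega) (x :: l) hs
    refine ⟨L ++ [x], P', h1.trans (erase_subset _ _), h2, ?_, by simpa using h4⟩
    rw [← Multiset.coe_add, add_right_comm, h3, erase_val, Multiset.coe_singleton,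
      Multiset.add_comm, Multiset.singleton_add]
    exact Multiset.cons_erase hx

theorem bad_phase {t : ℕ} (ht : 1 ≤ t) : ∀ (n : ℕ) (B S : Finset G), (0 : G) ∉ B → (0 : G) ∉ S →
    B.card = n → 2 * t - 2 + min n (t - 1) ≤ S.card → ∀ l : List G, Safe t l →
    ∃ (L : List G) (S' : Finset G), S' ⊆ S ∧ t - 1 ≤ S'.card ∧
      (L : Multiset G) + S'.val = B.val + S.val ∧ Safe t (L ++ l) := by
  classical
  intro n
  induction n with
  | zero =>
    intro B S _ _ hB hS l hl
    rw [card_eq_zero] at hB
    subst hB
    exact ⟨[], S, Subset.refl _, by omega, by simp, hl⟩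
  | succ n ih =>
    intro B S hB0 hS0 hB hS l hl
    rcases le_or_gt t (n + 1) with hn | hn
    · obtain ⟨b, hb, hs⟩ := exists_cons ht hB0 hl (by omega)
      obtain ⟨L, S', h1, h2, h3, h4⟩ := ih (B.erase b) S (fun h => hB0 (mem_of_mem_erase h)) hS0
        (by rw [card_erase_of_mem hb]; omega) (by omega) (b :: l) hs
      refine ⟨L ++ [b], S', h1, h2, ?_, by simpa using h4⟩
      rw [← Multiset.coe_add, add_right_comm, h3, erase_val, Multiset.coe_singleton,
        Multiset.add_comm, ← Multiset.add_assoc, Multiset.singleton_add]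
      congr 1
      exact Multiset.cons_erase hb
    · obtain ⟨b, hb⟩ : B.Nonempty := card_pos.mp (by omega)
      obtain ⟨x, hx, hs1, hs2⟩ := exists_cons2 ht (fun h => hB0 (h ▸ hb)) hS0 hl
        (b := b) (by omega)
      obtain ⟨L, S', h1, h2, h3, h4⟩ := ih (B.erase b) (S.erase x)
        (fun h => hB0 (mem_of_mem_erase h)) (fun h => hS0 (mem_of_mem_erase h))
        (by rw [card_erase_of_mem hb]; omega) (by rw [card_erase_of_mem hx]; omega)
        (b :: x :: l) hs2
      refine ⟨L ++ [b, x], S', h1.trans (erase_subset _ _), h2, ?_, by simpa using h4⟩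
      have e1 : ({b} : Multiset G) + (B.erase b).val = B.val := by
        rw [erase_val, Multiset.singleton_add]; exact Multiset.cons_erase hb
      have e2 : ({x} : Multiset G) + (S.erase x).val = S.val := by
        rw [erase_val, Multiset.singleton_add]; exact Multiset.cons_erase hx
      have e3 : (([b, x] : List G) : Multiset G) = {b} + {x} := rfl
      rw [← Multiset.coe_add, add_right_comm, h3, e3, ← e1, ← e2]
      abel

/-- The block number `m` of length `s` of the list `I`. -/
def blk (s : ℕ) (I : List G) (m : ℕ) : List G := (I.drop (m * s)).take s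

omit [AddCommGroup G] in
theorem blk_length {s : ℕ} {I : List G} {m : ℕ} (h : (m + 1) * s ≤ I.length) :
    (blk s I m).length = s := by
  unfold blk
  rw [List.length_take, List.length_drop, min_eq_left]
  rw [add_mul, one_mul] at h
  omega

omit [AddCommGroup G] in
theorem take_blk (s : ℕ) (I : List G) (m : ℕ) :
    I.take (m * s) ++ blk s I m = I.take ((m + 1) * s) := by
  unfold blk
  rw [add_mul, one_mul, List.take_add]

omit [AddCommGroup G] in
theorem blk_infix (s : ℕ) (I : List G) (m : ℕ) : blk s I m <:+: I :=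
  (List.take_prefix _ _).isInfix.trans (List.drop_suffix _ _).isInfix

omit [AddCommGroup G] in
theorem blk_blk_infix (s : ℕ) (I : List G) (m : ℕ) : blk s I m ++ blk s I (m + 1) <:+: I := by
  have : blk s I m ++ blk s I (m + 1) = (I.drop (m * s)).take (s + s) := by
    unfold blk
    rw [List.take_add, List.drop_drop, add_mul, one_mul]
  rw [this]
  exact (List.take_prefix _ _).isInfix.trans (List.drop_suffix _ _).isInfix

open Classical in
/-- The elements that may not be inserted between the blocks `m` and `m + 1`. -/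
noncomputable def forb (t s : ℕ) (I : List G) (m : ℕ) : Finset G :=
  ((Ico 1 t).sigma (fun l => range (l + 1))).image (fun q : (_ : ℕ) × ℕ =>
    -(((blk s I m).drop ((blk s I m).length - q.2)).sum + ((blk s I (m + 1)).take (q.1 - q.2)).sum))

theorem card_forb (s : ℕ) (I : List G) (m : ℕ) :
    2 * (forb (s + 1) s I m).card ≤ s * (s + 3) := by
  classical
  have h1 : (forb (s + 1) s I m).card ≤ ∑ l ∈ Ico 1 (s + 1), (l + 1) := by
    refine le_trans card_image_le ?_
    rw [card_sigma]
    simp
  have h2 : ∀ s : ℕ, 2 * ∑ l ∈ Ico 1 (s + 1), (l + 1) = s * (s + 3) := by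
    intro s
    induction s with
    | zero => simp
    | succ s ih =>
      rw [sum_Ico_succ_top (by omega), mul_add, ih]
      ring
  rw [← h2]
  omega

theorem safe_gap {t s : ℕ} {I : List G} {m : ℕ} {r : G} (hI : Safe t I) (h0 : r ≠ 0)
    (hr : r ∉ forb t s I m) : Safe t (blk s I m ++ ([r] ++ blk s I (m + 1))) := by
  classical
  refine safe_insert (hI.mono (blk_blk_infix s I m)) fun a b hab h => ?_
  rcases Nat.eq_zero_or_pos (a + b) with h1 | h1
  · obtain ⟨rfl, rfl⟩ : a = 0 ∧ b = 0 := by omega
    simp at h
    exact h0 h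
  · apply hr
    unfold forb
    rw [mem_image]
    refine ⟨⟨a + b, a⟩, ?_, ?_⟩
    · rw [mem_sigma, mem_Ico, mem_range]
      dsimp only
      omega
    · dsimp only
      rw [Nat.add_sub_cancel_left]
      exact (eq_neg_of_add_eq_zero_left h).symm

/-- The list `L` followed by the blocks `0, …, m` of `I`, with `o i` inserted between the blocks
`i` and `i + 1`. -/
def joined (s : ℕ) (L I : List G) (o : ℕ → List G) : ℕ → List G
  | 0 => L ++ blk s I 0
  | m + 1 => joined s L I o m ++ (o m ++ blk s I (m + 1))

/-- **Main theorem.** -/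
theorem exists_safe (s : ℕ) (A : Finset G) (h0 : (0 : G) ∉ A) (hA : (3 * s + 7) * s ≤ A.card) :
    ∃ l : List G, (l : Multiset G) = A.val ∧ Safe (s + 1) l := by
  classical
  have hsz : (3 * s + 7) * s = (2 * s + 3) * s + (s * (s + 1) + 3 * s) := by ring
  -- the frame
  obtain ⟨I, P, hPA, hPc, hIP, hI⟩ := greedy (t := s + 1) (by omega)
    (c := A.card - (2 * s + 3) * s) (by
      have : s ≤ s * (s + 1) + 3 * s := by nlinarith
      omega) ((2 * s + 3) * s) A h0 (by omega) [] (safe_nil _)
  rw [List.append_nil] at hI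
  have hIlen : I.length = (2 * s + 3) * s := by
    have := congrArg Multiset.card hIP
    rw [Multiset.card_add, Multiset.coe_card, card_val, card_val] at this
    omega
  have hP0 : (0 : G) ∉ P := fun h => h0 (hPA h)
  -- bad elements
  set B : Finset G := P.filter (fun r => ((range (2 * s + 2)).filter
    (fun m => r ∉ forb (s + 1) s I m)).card < s) with hB
  set S : Finset G := P.filter (fun r => ¬ ((range (2 * s + 2)).filter
    (fun m => r ∉ forb (s + 1) s I m)).card < s) with hS
  have hBcard : B.card ≤ s * (s + 1) := by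
    have h1 : ∀ r ∈ B, s + 3 ≤ ((range (2 * s + 2)).filter
        (fun m => r ∈ forb (s + 1) s I m)).card := by
      intro r hr
      have h2 := (mem_filter.mp hr).2
      have h3 := card_filter_add_card_filter_not (s := range (2 * s + 2))
        (p := fun m => r ∈ forb (s + 1) s I m)
      rw [card_range] at h3
      omega
    have h2 : B.card * (s + 3) ≤ ∑ r ∈ B, ((range (2 * s + 2)).filter
        (fun m => r ∈ forb (s + 1) s I m)).card := by
      rw [← smul_eq_mul]
      exact card_nsmul_le_sum _ _ _ h1
    have h3 : ∑ r ∈ B, ((range (2 * s + 2)).filter (fun m => r ∈ forb (s + 1) s I m)).card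
        = ∑ m ∈ range (2 * s + 2), (B.filter (fun r => r ∈ forb (s + 1) s I m)).card := by
      simp only [card_filter]
      exact sum_comm
    have h4 : ∑ m ∈ range (2 * s + 2), (B.filter (fun r => r ∈ forb (s + 1) s I m)).card
        ≤ ∑ m ∈ range (2 * s + 2), (forb (s + 1) s I m).card := by
      refine sum_le_sum fun m _ => card_le_card fun r hr => (mem_filter.mp hr).2
    have h5 : 2 * ∑ m ∈ range (2 * s + 2), (forb (s + 1) s I m).card
        ≤ (2 * s + 2) * (s * (s + 3)) := by
      rw [mul_sum]
      refine le_trans (sum_le_card_nsmul _ _ _ fun m _ => card_forb s I m) ?_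
      rw [card_range, smul_eq_mul]
    have h6 : B.card * (s + 3) ≤ s * (s + 1) * (s + 3) := by
      nlinarith
    exact Nat.le_of_mul_le_mul_right h6 (by omega)
  have hBS : B.val + S.val = P.val := by
    rw [hB, hS, filter_val, filter_val]
    exact Multiset.filter_add_not _ _
  have hScard : 3 * s ≤ S.card := by
    have := congrArg Multiset.card hBS
    rw [Multiset.card_add, card_val, card_val, card_val] at this
    omega
  have hSP : S ⊆ P := filter_subset _ _
  -- the bad elements are used up
  obtain ⟨L1, S1, hS1, hS1c, hL1, hs1⟩ := bad_phase (t := s + 1) (by omega) B.card B S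
    (fun h => hP0 (filter_subset _ _ h)) (fun h => hP0 (hSP h)) rfl (by omega) I hI
  -- greedy up to `s` elements
  obtain ⟨L2, Q, hQ, hQc, hL2, hs2⟩ := greedy (t := s + 1) (by omega) (c := s) (by omega)
    (S1.card - s) S1 (fun h => hP0 (hSP (hS1 h))) (by omega) (L1 ++ I) hs1
  -- the matching
  have hgood : ∀ q ∈ Q, s ≤ ((range (2 * s + 2)).filter
      (fun m => q ∉ forb (s + 1) s I m)).card := by
    intro q hq
    have := (mem_filter.mp (hS1 (hQ hq))).2
    omega
  obtain ⟨f, hfinj, hf⟩ := (Finset.all_card_le_biUnion_card_iff_exists_injective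
    (fun q : Q => (range (2 * s + 2)).filter (fun m => (q : G) ∉ forb (s + 1) s I m))).mp (by
      intro R
      rcases R.eq_empty_or_nonempty with h | ⟨q, hq⟩
      · simp [h]
      · refine le_trans ?_ (card_le_card (subset_biUnion_of_mem _ hq))
        refine le_trans (card_le_univ R) ?_
        rw [Fintype.card_coe, hQc]
        exact hgood q q.2)
  -- the inserted elements
  let o : ℕ → List G := fun m => if h : ∃ q : Q, f q = m then [(h.choose : G)] else []
  have ho : ∀ m, ((o m : List G) : Multiset G) =
      ∑ q ∈ (univ : Finset Q).filter (fun q => f q = m), {(q : G)} := by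
    intro m
    by_cases h : ∃ q : Q, f q = m
    · have h1 : (univ : Finset Q).filter (fun q => f q = m) = {h.choose} := by
        ext q
        simp only [mem_filter, mem_univ, true_and, mem_singleton]
        constructor
        · intro hq
          exact hfinj (hq.trans h.choose_spec.symm)
        · rintro rfl
          exact h.choose_spec
      rw [h1, sum_singleton]
      simp only [o, dif_pos h]
      rfl
    · have h1 : (univ : Finset Q).filter (fun q => f q = m) = ∅ := by
        ext q
        simp only [mem_filter, mem_univ, true_and, notMem_empty, iff_false]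
        exact fun hq => h ⟨q, hq⟩
      rw [h1, sum_empty]
      simp only [o, dif_neg h]
      rfl
  have hosum : ∑ m ∈ range (2 * s + 2), ((o m : List G) : Multiset G) = Q.val := by
    rw [sum_congr rfl fun m _ => ho m]
    rw [sum_fiberwise_of_maps_to (fun q _ => (mem_filter.mp (hf q)).1)]
    rw [Finset.sum_coe_sort Q (fun q => ({q} : Multiset G)), Finset.sum_multiset_singleton]
  set Z : ℕ → List G := joined s (L2 ++ L1) I o
  have hZ0 : Z 0 = L2 ++ L1 ++ blk s I 0 := rfl
  have hZs : ∀ m, Z (m + 1) = Z m ++ (o m ++ blk s I (m + 1)) := fun m => rfl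
  have hZsafe : ∀ m, m ≤ 2 * s + 2 → ∃ X, Z m = X ++ blk s I m ∧ Safe (s + 1) (Z m) := by
    intro m
    induction m with
    | zero =>
      intro _
      refine ⟨L2 ++ L1, rfl, hs2.mono ?_⟩
      rw [hZ0]
      refine ⟨[], I.drop s, ?_⟩
      have := take_blk s I 0
      simp only [zero_mul, List.take_zero, List.nil_append, zero_add, one_mul] at this
      rw [this, List.nil_append, List.append_assoc, List.append_assoc, List.take_append_drop]
    | succ m ih =>
      intro hm
      obtain ⟨X, hX, hXs⟩ := ih (by omega)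
      refine ⟨X ++ blk s I m ++ o m, ?_, ?_⟩
      · rw [hZs, hX]; simp
      · rw [hZs, hX]
        rw [hX] at hXs
        refine safe_glue hXs ?_ ?_
        · by_cases h : ∃ q : Q, f q = m
          · have : o m = [(h.choose : G)] := by simp only [o, dif_pos h]
            rw [this]
            refine safe_gap hI ?_ ?_
            · intro h1
              have h2 := h.choose.2
              rw [h1] at h2
              exact hP0 (hSP (hS1 (hQ h2)))
            · have h2 := (mem_filter.mp (hf h.choose)).2
              rwa [h.choose_spec] at h2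
          · have : o m = [] := by simp only [o, dif_neg h]
            rw [this, List.nil_append]
            exact hI.mono (blk_blk_infix s I m)
        · rw [blk_length]
          rw [hIlen]
          exact Nat.mul_le_mul_right _ (by omega)
  have hZm : ∀ m, Multiset.ofList (Z m) = Multiset.ofList L2 + Multiset.ofList L1
      + Multiset.ofList (I.take ((m + 1) * s))
      + ∑ i ∈ range m, ((o i : List G) : Multiset G) := by
    intro m
    induction m with
    | zero =>
      rw [hZ0, ← take_blk]
      simp
    | succ m ih =>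
      rw [hZs, sum_range_succ, ← take_blk s I (m + 1), ← Multiset.coe_add, ← Multiset.coe_add,
        ← Multiset.coe_add, ih]
      abel
  obtain ⟨X, _, hX⟩ := hZsafe (2 * s + 2) le_rfl
  refine ⟨Z (2 * s + 2), ?_, hX⟩
  rw [hZm, hosum, List.take_of_length_le (by rw [hIlen])]
  rw [← hIP, ← hBS, ← hL1, ← hL2]
  abel

/-- Let `t ≥ 1`, let `G` be an abelian group and `A` a finite subset of `G` that does not contain
`0`, with at least `(3 t + 4) (t - 1)` elements.  Then `A` is `t`-weak sequenceable: the elements of
`A` can be listed, each exactly once, so that any two partial sums whose indices differ by at least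
`1` and at most `t` are different. -/
theorem result {G : Type*} [AddCommGroup G] (t : ℕ) (ht : 1 ≤ t) (A : Finset G)
    (h0 : (0 : G) ∉ A) (hA : (3 * t + 4) * (t - 1) ≤ A.card) :
    ∃ l : List G, l.Nodup ∧ (∀ x, x ∈ l ↔ x ∈ A) ∧
      ∀ i j : ℕ, i < j → j ≤ i + t → j ≤ l.length → (l.take i).sum ≠ (l.take j).sum := by
  obtain ⟨s, rfl⟩ : ∃ s, t = s + 1 := ⟨t - 1, by omega⟩
  obtain ⟨l, hl, hs⟩ := exists_safe s A h0 (by
    rw [Nat.add_sub_cancel] at hA
    exact hA)
  refine ⟨l, ?_, fun x => ?_, fun i j h1 h2 h3 => hs.partial_sums h1 h3 h2⟩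
  · rw [← Multiset.coe_nodup, hl]
    exact A.nodup
  · rw [← Multiset.mem_coe, hl]
    rfl

end Pool.Agent.Results.MP_b4ec45_co.QuadraticRange
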